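import Pool.Agent.H77.TL.Drv

set_option autoImplicit false
set_option maxRecDepth 100000

namespace Pool.MP324

def dataN1D00 : List (Nat × List Nat) := [(1740, [189, 401, 579, 729, 855, 960, 1047, 1144, 1225, 1292, 1348, 1411, 1481, 1539, 1604, 1676, 1757, 1847, 1982, 2133, 2302, 2491, 2703, 2925]), (1860, [141, 352, 529, 677, 801, 905, 992, 1064, 1145, 1212, 1268, 1315, 1367, 1410, 1458, 1512, 1572, 1639, 1714, 1798, 1892, 1997, 2114, 2289, 2485, 2704, 2875]), (1980, [189, 401, 579, 729, 855, 960, 1047, 1119, 1179, 1246, 1302, 1349, 1401, 1459, 1507, 1561, 1621, 1688, 1763, 1847, 1941, 2082, 2240, 2417, 2615, 2817]), (2100, [189, 401, 579, 729, 855, 960, 1047, 1119, 1200, 1267, 1323, 1386, 1438, 1496, 1561, 1633, 1714, 1804, 1905, 2018, 2144, 2285, 2443, 2620, 2762])]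

theorem chunkN1D00 : strips (stripD FN1D) 4096 1640 dataN1D00 = true := by decide +kernel

theorem endN1D00 : stripsEnd 1640 dataN1D00 = 2100 := by decide +kernel

end Pool.MP324
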