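import Pool.Agent.H77.TL.Drv

set_option autoImplicit false
set_option maxRecDepth 100000

namespace Pool.MP324

def dataN1D01 : List (Nat × List Nat) := [(2220, [189, 401, 579, 729, 855, 960, 1047, 1144, 1225, 1292, 1348, 1411, 1463, 1521, 1586, 1658, 1739, 1829, 1930, 2043, 2169, 2310, 2468, 2648, 2708]), (2340, [189, 401, 579, 729, 855, 960, 1047, 1144, 1225, 1292, 1348, 1411, 1463, 1521, 1586, 1658, 1739, 1829, 1930, 2043, 2169, 2310, 2468, 2657]), (2484, [141, 352, 529, 677, 801, 905, 992, 1064, 1145, 1212, 1268, 1315, 1354, 1397, 1433, 1473, 1518, 1568, 1610, 1657, 1709, 1767, 1854, 1951, 2059, 2180, 2315, 2466, 2607]), (2628, [141, 352, 529, 677, 801, 905, 992, 1064, 1145, 1212, 1268, 1315, 1367, 1410, 1458, 1498, 1543, 1593, 1649, 1712, 1782, 1860, 1947, 2044, 2152, 2273, 2408, 2550])]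

theorem chunkN1D01 : strips (stripD FN1D) 4096 2100 dataN1D01 = true := by decide +kernel

theorem endN1D01 : stripsEnd 2100 dataN1D01 = 2628 := by decide +kernel

end Pool.MP324
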