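import Pool.Agent.H77.TL.Drv

set_option autoImplicit false
set_option maxRecDepth 100000

namespace Pool.MP324

def dataN1D02 : List (Nat × List Nat) := [(2750, [189, 401, 579, 729, 855, 960, 1077, 1175, 1257, 1326, 1403, 1467, 1539, 1599, 1666, 1741, 1825, 1919, 2024, 2141, 2272, 2398, 2496]), (2872, [189, 401, 579, 729, 855, 960, 1077, 1175, 1257, 1326, 1403, 1467, 1539, 1599, 1666, 1741, 1825, 1919, 2024, 2141, 2272, 2406, 2451]), (2994, [189, 401, 579, 729, 855, 960, 1077, 1175, 1257, 1326, 1403, 1467, 1539, 1599, 1666, 1741, 1825, 1919, 2024, 2111, 2208, 2316, 2408]), (3097, [189, 401, 579, 729, 897, 1038, 1156, 1255, 1338, 1431, 1509, 1596, 1693, 1774, 1864, 1965, 2078, 2172, 2277, 2367])]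

theorem chunkN1D02 : strips (stripD FN1D) 4096 2628 dataN1D02 = true := by decide +kernel

theorem endN1D02 : stripsEnd 2628 dataN1D02 = 3097 := by decide +kernel

end Pool.MP324
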