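import Pool.Agent.H77.TL.Drv

set_option autoImplicit false
set_option maxRecDepth 100000

namespace Pool.MP324

def dataN1D03 : List (Nat × List Nat) := [(3200, [189, 348, 526, 676, 844, 985, 1103, 1202, 1313, 1406, 1484, 1571, 1668, 1749, 1839, 1940, 2024, 2118, 2196, 2272, 2333]), (3303, [189, 348, 526, 676, 802, 943, 1061, 1160, 1271, 1364, 1442, 1529, 1626, 1707, 1797, 1898, 1982, 2076, 2154, 2214, 2262, 2300]), (3390, [189, 348, 526, 676, 844, 985, 1103, 1235, 1346, 1439, 1543, 1630, 1727, 1835, 1925, 2026, 2110, 2176, 2227, 2268]), (3477, [189, 348, 526, 676, 802, 943, 1061, 1193, 1304, 1397, 1501, 1588, 1685, 1793, 1883, 1984, 2068, 2138, 2181, 2214, 2235, 2242])]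

theorem chunkN1D03 : strips (stripD FN1D) 4096 3097 dataN1D03 = true := by decide +kernel

theorem endN1D03 : stripsEnd 3097 dataN1D03 = 3477 := by decide +kernel

end Pool.MP324
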