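import Pool.Agent.H77.TL.Drv

set_option autoImplicit false
set_option maxRecDepth 100000

namespace Pool.MP324

def dataN1D04 : List (Nat × List Nat) := [(3564, [141, 299, 476, 624, 748, 887, 1004, 1135, 1245, 1337, 1440, 1555, 1651, 1759, 1849, 1950, 2034, 2104, 2151, 2187, 2202, 2212, 2216]), (3637, [141, 299, 476, 624, 748, 887, 1004, 1135, 1245, 1368, 1471, 1586, 1715, 1823, 1913, 2014, 2088, 2145, 2179, 2191]), (3710, [141, 299, 431, 579, 703, 842, 959, 1090, 1200, 1323, 1426, 1541, 1670, 1778, 1868, 1969, 2053, 2118, 2157, 2170]), (3783, [105, 222, 353, 463, 586, 689, 804, 900, 1008, 1129, 1230, 1343, 1437, 1542, 1659, 1757, 1867, 1959, 2036, 2099, 2137, 2150])]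

theorem chunkN1D04 : strips (stripD FN1D) 4096 3477 dataN1D04 = true := by decide +kernel

theorem endN1D04 : stripsEnd 3477 dataN1D04 = 3783 := by decide +kernel

end Pool.MP324
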