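import Pool.Agent.H77.TL.Drv

set_option autoImplicit false
set_option maxRecDepth 100000

namespace Pool.MP324

def dataN1D05 : List (Nat × List Nat) := [(3845, [105, 222, 353, 463, 586, 689, 804, 900, 1008, 1129, 1230, 1343, 1469, 1574, 1691, 1789, 1899, 1991, 2069, 2114, 2130]), (3897, [105, 222, 353, 463, 586, 689, 804, 900, 1008, 1129, 1230, 1343, 1469, 1610, 1728, 1860, 1965, 2048, 2113]), (3941, [105, 222, 320, 430, 553, 656, 771, 867, 975, 1096, 1197, 1310, 1436, 1577, 1695, 1827, 1938, 2028, 2099]), (3978, [78, 165, 262, 370, 460, 561, 674, 768, 873, 990, 1088, 1198, 1321, 1459, 1575, 1705, 1814, 1936, 2021, 2088]), (4003, [105, 222, 320, 430, 553, 691, 807, 937, 1083, 1206, 1344, 1499, 1629, 1775, 1898, 1999, 2078])]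

theorem chunkN1D05 : strips (stripD FN1D) 4096 3783 dataN1D05 = true := by decide +kernel

theorem endN1D05 : stripsEnd 3783 dataN1D05 = 4003 := by decide +kernel

end Pool.MP324
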