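import Pool.Agent.H77.TL.Drv

set_option autoImplicit false
set_option maxRecDepth 100000

namespace Pool.MP324

def dataN1D06 : List (Nat × List Nat) := [(4028, [78, 165, 262, 343, 433, 534, 618, 712, 817, 904, 1001, 1109, 1230, 1331, 1444, 1570, 1711, 1829, 1928, 2009, 2072]), (4045, [78, 165, 262, 370, 460, 561, 674, 800, 905, 1022, 1153, 1263, 1386, 1524, 1679, 1809, 1917, 2000, 2066]), (4059, [58, 123, 195, 276, 366, 467, 551, 645, 750, 867, 965, 1075, 1198, 1301, 1416, 1545, 1689, 1810, 1911, 2023, 2061]), (4070, [58, 123, 195, 276, 366, 441, 525, 619, 724, 811, 908, 1016, 1106, 1207, 1320, 1446, 1551, 1668, 1766, 1848, 1940, 2058])]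

theorem chunkN1D06 : strips (stripD FN1D) 4096 4003 dataN1D06 = true := by decide +kernel

theorem endN1D06 : stripsEnd 4003 dataN1D06 = 4070 := by decide +kernel

end Pool.MP324
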