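import Pool.Agent.H77.TL.Drv

set_option autoImplicit false
set_option maxRecDepth 100000

namespace Pool.MP324

def dataN1D07 : List (Nat × List Nat) := [(4076, [78, 165, 262, 370, 491, 626, 739, 865, 1006, 1124, 1256, 1404, 1528, 1667, 1784, 1882, 2055])]

theorem chunkN1D07 : strips (stripD FN1D) 4096 4070 dataN1D07 = true := by decide +kernel

theorem endN1D07 : stripsEnd 4070 dataN1D07 = 4076 := by decide +kernel

end Pool.MP324
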