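import Pool.Agent.H77.TL.Drv

set_option autoImplicit false
set_option maxRecDepth 100000

namespace Pool.MP324

def dataN1Y00 : List (Nat × List Nat) := [(400, [189, 401, 639, 839, 1007, 1148, 1266, 1365, 1476, 1600, 1739, 1895, 2070, 2266, 2486, 2733, 3010, 3321, 3582, 3870, 4039, 4096]), (880, [189, 401, 579, 729, 855, 960, 1047, 1119, 1179, 1246, 1302, 1349, 1401, 1444, 1492, 1546, 1606, 1673, 1748, 1832, 1926, 2031, 2148, 2279, 2426, 2591, 2776, 2983, 3215, 3410, 3590, 3732]), (1120, [189, 401, 579, 729, 855, 960, 1047, 1119, 1200, 1267, 1323, 1386, 1438, 1496, 1561, 1633, 1714, 1804, 1905, 2018, 2144, 2285, 2443, 2620, 2818, 3040, 3226, 3372])]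

theorem chunkN1Y00 : strips (stripY FN1Y) 4096 0 dataN1Y00 = true := by decide +kernel

theorem endN1Y00 : stripsEnd 0 dataN1Y00 = 1120 := by decide +kernel

end Pool.MP324
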