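import Pool.Agent.H77.TL.Drv

set_option autoImplicit false
set_option maxRecDepth 100000

namespace Pool.MP324

def dataN1Y01 : List (Nat × List Nat) := [(1360, [189, 401, 579, 729, 855, 960, 1047, 1119, 1179, 1229, 1271, 1318, 1357, 1400, 1436, 1476, 1509, 1545, 1585, 1630, 1680, 1736, 1799, 1869, 1947, 2034, 2131, 2239, 2360, 2495, 2646, 2815, 3004, 3163, 3217]), (1528, [189, 401, 579, 729, 855, 960, 1047, 1119, 1179, 1246, 1302, 1349, 1401, 1444, 1492, 1532, 1577, 1627, 1683, 1746, 1816, 1894, 1981, 2078, 2186, 2307, 2442, 2593, 2762, 2938, 3076]), (1640, [189, 401, 579, 729, 855, 960, 1047, 1144, 1225, 1292, 1348, 1411, 1463, 1521, 1586, 1658, 1739, 1829, 1930, 2043, 2169, 2310, 2468, 2645, 2835, 2984])]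

theorem chunkN1Y01 : strips (stripY FN1Y) 4096 1120 dataN1Y01 = true := by decide +kernel

theorem endN1Y01 : stripsEnd 1120 dataN1Y01 = 1640 := by decide +kernel

end Pool.MP324
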