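import Pool.Agent.H77.TL.Drv

set_option autoImplicit false
set_option maxRecDepth 100000

namespace Pool.MP324

def dataR2D00 : List (Nat × List Nat) := [(2913, [78, 165, 262, 370, 491, 672, 875, 1103, 1359, 1647, 1890, 2094, 2226, 2329, 2389, 2410]), (2968, [78, 165, 262, 370, 491, 672, 875, 1103, 1359, 1647, 1890, 2094, 2220, 2317, 2359, 2385, 2394]), (3023, [78, 165, 262, 370, 491, 672, 875, 1103, 1359, 1647, 1890, 2094, 2212, 2304, 2358, 2376]), (3089, [78, 165, 262, 370, 491, 626, 828, 1055, 1310, 1524, 1764, 1966, 2130, 2225, 2299, 2331, 2350, 2357]), (3155, [78, 165, 262, 370, 491, 672, 875, 1103, 1359, 1575, 1818, 2022, 2154, 2256, 2301, 2327, 2336])]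

theorem chunkR2D00 : strips (stripD FR2D) 2442 2867 dataR2D00 = true := by decide +kernel

theorem endR2D00 : stripsEnd 2867 dataR2D00 = 3155 := by decide +kernel

end Pool.MP324
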