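import Pool.Agent.H77.TL.Drv

set_option autoImplicit false
set_option maxRecDepth 100000

namespace Pool.MP324

def dataR2D01 : List (Nat × List Nat) := [(3221, [78, 165, 262, 370, 491, 672, 875, 1103, 1359, 1575, 1818, 1971, 2099, 2189, 2258, 2300, 2314]), (3287, [78, 165, 262, 370, 532, 714, 918, 1147, 1404, 1620, 1802, 1955, 2083, 2200, 2269, 2293]), (3353, [78, 165, 262, 370, 532, 714, 918, 1147, 1404, 1620, 1802, 1955, 2083, 2189, 2252, 2273]), (3419, [78, 165, 262, 407, 569, 751, 955, 1184, 1441, 1657, 1839, 1992, 2101, 2186, 2236, 2253]), (3485, [78, 165, 262, 407, 569, 751, 955, 1184, 1441, 1657, 1839, 1992, 2093, 2171, 2217, 2233])]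

theorem chunkR2D01 : strips (stripD FR2D) 2442 3155 dataR2D01 = true := by decide +kernel

theorem endR2D01 : stripsEnd 3155 dataR2D01 = 3485 := by decide +kernel

end Pool.MP324
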