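import Pool.Agent.H77.TL.Drv

set_option autoImplicit false
set_option maxRecDepth 100000

namespace Pool.MP324

def dataR2D02 : List (Nat × List Nat) := [(3551, [78, 165, 262, 407, 569, 751, 955, 1184, 1376, 1592, 1774, 1927, 2047, 2140, 2195, 2214]), (3617, [78, 165, 262, 407, 569, 751, 955, 1184, 1376, 1592, 1774, 1927, 2039, 2104, 2154, 2194]), (3673, [105, 222, 353, 500, 665, 850, 1057, 1289, 1484, 1703, 1887, 2008, 2102, 2176]), (3729, [105, 222, 353, 500, 665, 850, 1057, 1289, 1484, 1648, 1786, 1902, 1999, 2089, 2142, 2160]), (3776, [105, 222, 353, 500, 665, 850, 1057, 1289, 1484, 1648, 1832, 1963, 2065, 2145]), (3823, [105, 222, 353, 500, 665, 850, 1057, 1289, 1484, 1648, 1786, 1902, 1998, 2073, 2132])]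

theorem chunkR2D02 : strips (stripD FR2D) 2442 3485 dataR2D02 = true := by decide +kernel

theorem endR2D02 : stripsEnd 3485 dataR2D02 = 3823 := by decide +kernel

end Pool.MP324
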