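import Pool.Agent.H77.TL.Drv

set_option autoImplicit false
set_option maxRecDepth 100000

namespace Pool.MP324

def dataR2D03 : List (Nat × List Nat) := [(3870, [105, 222, 353, 500, 665, 850, 1057, 1231, 1426, 1590, 1728, 1844, 1941, 2015, 2073, 2119]), (3909, [105, 222, 353, 500, 665, 850, 1057, 1231, 1426, 1590, 1728, 1844, 1941, 2010, 2082, 2107]), (3942, [105, 222, 353, 500, 665, 850, 1057, 1231, 1426, 1590, 1728, 1844, 1941, 2028, 2096]), (3970, [105, 222, 353, 500, 665, 850, 1057, 1231, 1426, 1590, 1728, 1844, 1941, 2023, 2088]), (3993, [105, 222, 353, 500, 665, 850, 1057, 1231, 1426, 1590, 1728, 1844, 1941, 2019, 2080]), (4009, [105, 222, 397, 593, 813, 998, 1205, 1379, 1574, 1738, 1876, 1987, 2075])]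

theorem chunkR2D03 : strips (stripD FR2D) 2442 3823 dataR2D03 = true := by decide +kernel

theorem endR2D03 : stripsEnd 3823 dataR2D03 = 4009 := by decide +kernel

end Pool.MP324
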