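import Pool.Agent.H77.TL.Drv

set_option autoImplicit false
set_option maxRecDepth 100000

namespace Pool.MP324

def dataR2D04 : List (Nat × List Nat) := [(4028, [105, 222, 353, 500, 665, 803, 958, 1132, 1278, 1401, 1539, 1655, 1752, 1833, 1900, 1956, 2019, 2070]), (4041, [105, 222, 353, 500, 665, 850, 1005, 1179, 1325, 1489, 1627, 1743, 1840, 1921, 2002, 2066]), (4052, [105, 222, 353, 500, 665, 850, 1005, 1179, 1325, 1448, 1586, 1702, 1799, 1880, 1947, 2011, 2062]), (4061, [105, 222, 353, 500, 665, 850, 1005, 1179, 1325, 1448, 1551, 1666, 1762, 1843, 1910, 1985, 2041, 2060]), (4068, [105, 222, 353, 500, 665, 850, 1005, 1135, 1281, 1404, 1507, 1622, 1718, 1799, 1889, 1959, 2032, 2057])]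

theorem chunkR2D04 : strips (stripD FR2D) 2442 4009 dataR2D04 = true := by decide +kernel

theorem endR2D04 : stripsEnd 4009 dataR2D04 = 4068 := by decide +kernel

end Pool.MP324
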