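import Pool.Agent.H77.TL.Drv

set_option autoImplicit false
set_option maxRecDepth 100000

namespace Pool.MP324

def dataR2D05 : List (Nat × List Nat) := [(4075, [105, 222, 353, 463, 586, 724, 840, 970, 1079, 1201, 1303, 1388, 1483, 1562, 1628, 1702, 1764, 1815, 1872, 1919, 1958, 2001, 2042, 2056]), (4076, [141, 299, 476, 674, 896, 1082, 1238, 1413, 1560, 1683, 1786, 1872, 1968, 2054])]

theorem chunkR2D05 : strips (stripD FR2D) 2442 4068 dataR2D05 = true := by decide +kernel

theorem endR2D05 : stripsEnd 4068 dataR2D05 = 4076 := by decide +kernel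

end Pool.MP324
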