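import Pool.Agent.H77.TL.Drv

set_option autoImplicit false
set_option maxRecDepth 100000

namespace Pool.MP324

def dataR2Y00 : List (Nat × List Nat) := [(400, [141, 299, 476, 741, 1038, 1371, 1870, 2299, 2442]), (1200, [141, 299, 431, 579, 745, 931, 1140, 1374, 1637, 1932, 2146, 2312, 2442]), (1600, [141, 299, 476, 674, 840, 1026, 1235, 1469, 1732, 1953, 2139, 2309, 2408, 2442]), (1880, [141, 299, 476, 674, 896, 1145, 1424, 1658, 1921, 2140, 2266, 2365, 2407, 2442]), (2076, [141, 299, 476, 674, 896, 1145, 1424, 1737, 2000, 2186, 2294, 2377, 2425, 2442]), (2213, [141, 299, 476, 674, 896, 1145, 1424, 1737, 2000, 2186, 2294, 2377, 2425, 2442]), (2329, [141, 299, 476, 674, 896, 1145, 1424, 1737, 2000, 2186, 2294, 2377, 2425, 2442])]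

theorem chunkR2Y00 : strips (stripY FR2Y) 2442 0 dataR2Y00 = true := by decide +kernel

theorem endR2Y00 : stripsEnd 0 dataR2Y00 = 2329 := by decide +kernel

end Pool.MP324
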