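import Pool.Agent.H77.TL.Drv

set_option autoImplicit false
set_option maxRecDepth 100000

namespace Pool.MP324

def dataR2Y01 : List (Nat × List Nat) := [(2427, [141, 299, 476, 674, 896, 1145, 1424, 1737, 1934, 2099, 2237, 2322, 2389, 2418, 2436, 2442]), (2510, [141, 299, 476, 741, 963, 1212, 1491, 1725, 1922, 2087, 2225, 2315, 2386, 2417, 2435, 2442]), (2568, [141, 299, 536, 802, 1101, 1437, 1720, 1958, 2158, 2277, 2369, 2423, 2442]), (2626, [141, 299, 536, 802, 1101, 1353, 1636, 1874, 2074, 2229, 2318, 2387, 2417, 2435, 2442]), (2675, [141, 299, 536, 802, 1101, 1437, 1720, 1958, 2158, 2277, 2369, 2409, 2433, 2442]), (2724, [141, 299, 536, 802, 1101, 1353, 1636, 1874, 2074, 2229, 2318, 2369, 2409, 2433, 2442])]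

theorem chunkR2Y01 : strips (stripY FR2Y) 2442 2329 dataR2Y01 = true := by decide +kernel

theorem endR2Y01 : stripsEnd 2329 dataR2Y01 = 2724 := by decide +kernel

end Pool.MP324
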