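import Pool.Agent.H77.TL.Drv

set_option autoImplicit false
set_option maxRecDepth 100000

namespace Pool.MP324

def dataR2Y02 : List (Nat × List Nat) := [(2773, [141, 299, 476, 741, 963, 1212, 1491, 1725, 1922, 2087, 2225, 2315, 2368, 2398, 2422, 2433, 2439, 2442]), (2814, [141, 299, 536, 802, 1026, 1278, 1561, 1799, 1999, 2167, 2282, 2349, 2387, 2417, 2430, 2439, 2442]), (2855, [141, 299, 476, 674, 896, 1145, 1424, 1658, 1855, 2020, 2158, 2271, 2336, 2387, 2409, 2423, 2428]), (2867, [141, 352, 589, 855, 1154, 1490, 1773, 2011, 2180, 2311, 2388, 2414])]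

theorem chunkR2Y02 : strips (stripY FR2Y) 2442 2724 dataR2Y02 = true := by decide +kernel

theorem endR2Y02 : stripsEnd 2724 dataR2Y02 = 2867 := by decide +kernel

end Pool.MP324
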