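import Pool.Agent.H77.TL.Drv2

set_option autoImplicit false
set_option maxRecDepth 100000

namespace Pool.MP324

def dataC2A00 : List (Nat × List Nat) := [(400, [600, 1050, 1310, 1511, 1628, 1668]), (960, [600, 1050, 1310, 1460, 1547, 1614, 1654, 1668]), (1744, [450, 825, 1041, 1209, 1307, 1340]), (2048, [553])]

theorem chunkC2A00 : stripsG (okA 1668 410) (stripE FC2A) 0 dataC2A00 = true := by decide +kernel

theorem endC2A00 : stripsEnd 0 dataC2A00 = 2048 := by decide +kernel

end Pool.MP324
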