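import Pool.Agent.H77.TL.Drv2

set_option autoImplicit false
set_option maxRecDepth 100000

namespace Pool.MP324

def dataC2B00 : List (Nat × List Nat) := [(2448, [410]), (3248, [410]), (4096, [410])]

theorem chunkC2B00 : stripsG (okCap 410) (stripE FC2B) 2048 dataC2B00 = true := by decide +kernel

theorem endC2B00 : stripsEnd 2048 dataC2B00 = 4096 := by decide +kernel

end Pool.MP324
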