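import Pool.Agent.H77.TL.Drv2

set_option autoImplicit false
set_option maxRecDepth 100000

namespace Pool.MP324

def dataC2D00 : List (Nat × List Nat) := [(2943, [450, 956, 1356, 1668]), (3279, [337, 715, 1033, 1300, 1507, 1627, 1668]), (3564, [252, 535, 853, 1120, 1345, 1480, 1585, 1668]), (3763, [252, 535, 853, 1120, 1345, 1480, 1585, 1647, 1668]), (3902, [252, 535, 853, 1120, 1345, 1480, 1585, 1647, 1668]), (3999, [189, 401, 639, 906, 1131, 1320, 1466, 1550, 1616, 1655, 1668]), (4047, [189, 401, 639, 906, 1131, 1320, 1466, 1579, 1645, 1668]), (4071, [189, 401, 639, 906, 1206, 1400, 1512, 1599, 1668]), (4083, [189, 401, 719, 986, 1286, 1446, 1570, 1643, 1668]), (4091, [141, 299, 476, 674, 896, 1145, 1354, 1486, 1588, 1648, 1668]), (4092, [189, 472, 896, 1221, 1472, 1619, 1668])]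

theorem chunkC2D00 : stripsG (okCap 1668) (stripD FC2D) 2703 dataC2D00 = true := by decide +kernel

theorem endC2D00 : stripsEnd 2703 dataC2D00 = 4092 := by decide +kernel

end Pool.MP324
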