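import Pool.Agent.H77.TL.Drv2

set_option autoImplicit false
set_option maxRecDepth 100000

namespace Pool.MP324

def dataT5A00 : List (Nat × List Nat) := [(400, [600, 1106, 1532, 1884, 2088, 2245, 2337, 2368]), (960, [600, 1106, 1532, 1796, 2018, 2165, 2279, 2328, 2358, 2368]), (2048, [337, 620, 858, 1058, 1216, 1340])]

theorem chunkT5A00 : stripsG (okA 2368 410) (stripE FT5A) 0 dataT5A00 = true := by decide +kernel

theorem endT5A00 : stripsEnd 0 dataT5A00 = 2048 := by decide +kernel

end Pool.MP324
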