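import Pool.Agent.H77.TL.Drv2

set_option autoImplicit false
set_option maxRecDepth 100000

namespace Pool.MP324

def dataT5D00 : List (Nat × List Nat) := [(2983, [252, 535, 853, 1210, 1510, 1847, 2139, 2368]), (3263, [189, 401, 639, 906, 1206, 1543, 1826, 2130, 2368]), (3501, [141, 299, 476, 674, 896, 1145, 1424, 1737, 2088, 2368]), (3703, [105, 222, 353, 500, 665, 850, 1057, 1289, 1550, 1843, 2137, 2368]), (3804, [141, 299, 476, 674, 971, 1304, 1678, 2065, 2368]), (3905, [78, 165, 262, 370, 491, 626, 777, 946, 1135, 1418, 1736, 2091, 2368]), (3955, [141, 299, 476, 674, 896, 1145, 1518, 1937, 2260, 2368]), (3997, [105, 222, 353, 500, 665, 850, 1057, 1367, 1715, 2081, 2368]), (4026, [105, 222, 353, 500, 665, 850, 1057, 1289, 1637, 2028, 2368]), (4046, [78, 165, 295, 441, 605, 789, 996, 1228, 1489, 1782, 2111, 2368])]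

theorem chunkT5D00 : stripsG (okCap 2368) (stripD FT5D) 2703 dataT5D00 = true := by decide +kernel

theorem endT5D00 : stripsEnd 2703 dataT5D00 = 4046 := by decide +kernel

end Pool.MP324
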