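import Pool.Agent.H77.TL.Drv2

set_option autoImplicit false
set_option maxRecDepth 100000

namespace Pool.MP324

def dataT5D01 : List (Nat × List Nat) := [(4060, [78, 165, 262, 407, 569, 751, 955, 1184, 1441, 1729, 2053, 2368]), (4071, [78, 165, 262, 370, 491, 626, 777, 946, 1199, 1483, 1802, 2120, 2368]), (4078, [78, 165, 262, 370, 491, 626, 828, 1055, 1310, 1596, 1917, 2255, 2368]), (4085, [43, 91, 145, 205, 272, 347, 431, 525, 630, 747, 878, 1025, 1190, 1375, 1582, 1814, 2075, 2368]), (4088, [58, 145, 242, 350, 471, 606, 757, 983, 1237, 1522, 1842, 2137, 2368]), (4091, [43, 91, 145, 205, 272, 347, 431, 525, 630, 747, 878, 1025, 1190, 1375, 1582, 1814, 2075, 2294, 2368]), (4092, [78, 165, 262, 407, 569, 751, 955, 1184, 1527, 1815, 2125, 2368])]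

theorem chunkT5D01 : stripsG (okCap 2368) (stripD FT5D) 4046 dataT5D01 = true := by decide +kernel

theorem endT5D01 : stripsEnd 4046 dataT5D01 = 4092 := by decide +kernel

end Pool.MP324
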