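import Pool.Agent.H77.TL.Drv2

set_option autoImplicit false
set_option maxRecDepth 100000

namespace Pool.MP324

def dataNEG00 : List (Nat × List Nat) := [(400, [800, 1700, 2459, 3312, 4096]), (1200, [800, 1475, 2044, 2523, 3061, 3732]), (1600, [800, 1475, 2044, 2518, 3005, 3168]), (1940, [600, 1106, 1532, 1891, 2193, 2447, 2727, 2946]), (2177, [600, 1106, 1532, 1801, 2027, 2281, 2491, 2707, 2780]), (2378, [600, 979, 1298, 1566, 1791, 1980, 2139, 2272, 2383, 2507, 2633, 2675]), (2518, [450, 829, 1148, 1416, 1641, 1830, 1989, 2122, 2233, 2326, 2430, 2520, 2592]), (2616, [450, 829, 1148, 1416, 1641, 1782, 1940, 2072, 2183, 2276, 2354, 2441, 2513, 2537]), (2684, [450, 829, 1148, 1416, 1641, 1782, 1900, 2032, 2143, 2236, 2314, 2379, 2446, 2500]), (2704, [450, 829, 1148, 1416, 1641, 1830, 2042, 2220, 2363, 2475])]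

theorem chunkNEG00 : strips (stripY FNEG) 4096 0 dataNEG00 = true := by decide +kernel

theorem endNEG00 : stripsEnd 0 dataNEG00 = 2704 := by decide +kernel

end Pool.MP324
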